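import Pool.Agent.Run7.h927.ST.Near
import Pool.Agent.Run7.h414.DP.Kc

/-!
# Prime tuples, uniformly for all short shifts, around random integers with determinantal digits

The digits of the random integers `v i` are given by determinantal random sets `S` of positions (determinantal point processes
with arbitrary Hermitian kernels): the digit number `l` is `y l` if `l ∈ S` and `x l ≠ y l` otherwise. Examples (their
existence is not used and not formalised): the edges of a uniform spanning tree of a graph with `k` edges; stationary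
determinantal processes with any symbol which is not almost everywhere `0` or almost everywhere `1` (for example the discrete
sine process with any density); independent digits; and all the events for such processes whose probability is at least
`1 / k ^ t`, for example a prescribed number of elements of `S`.

Definitions used (in `Pool.Agent.Run7.h414.DP.Law` and `Pool.Agent.Run7.h414.DP.Fam`): `DetLaw`, `GoodPos`, `DetDigits`. From
Mathlib: `Fintype.piFinset S`: the vectors `v` with `v i ∈ S i` for all `i`; `ArithmeticFunction.vonMangoldt`.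

Method: the characteristic function is `det (1 + D A)`; the inequality `|det N|² ≤ exp (tr N* N - k)` for
`N = 1 + B D B*`, `A = B* B`, bounds it by `exp (- E)` with an energy `E` which is at least a constant times the number of
the good positions near the places where the frequency is far from the rational numbers with small denominators. Hence the
sum of `G(n) (Λ - λ_z)(n + v)` over `n ≤ N` is small for almost all `v`, for ARBITRARY coefficients `G`
(`Pool.Agent.N625.DY.cls_one`, starting files); the passage to tuples with all slopes is from the starting files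
(`Pool.Agent.N469.PT`, `Pool.Agent.N699.ST`), the passage to all the neighbours is `Pool.Agent.Run7.h927.ST.ws_near` (helper927).
-/

set_option autoImplicit false

open Finset
open Pool.Agent.Run7.h414.DP (DC DetDigits fam_dc dc_one digits_le dom_log DC_nonneg)

namespace Pool.Agent.Results.MP_485179_nt.DeterminantalShifts

/-- The system of the forms `r` and `d i * r + a i` is admissible: for every prime `p` there is an integer `r` for which
`p` divides neither `r` nor any of the `d i * r + a i`. -/
def Admissible {s : ℕ} (d a : Fin s → ℕ) : Prop := ∀ p : ℕ, p.Prime → ∃ r : ℕ, ¬ p ∣ r ∧ ∀ i, ¬ p ∣ d i * r + a i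

/-- the number of the primes `m ≤ x` for which all the numbers `d i * m + a i` are primes -/
def count {s : ℕ} (d a : Fin s → ℕ) (x : ℕ) : ℕ := ((Icc 1 x).filter fun m => m.Prime ∧ ∀ i, (d i * m + a i).Prime).card

/-- the number of the classes `r` modulo `p` for which `p` divides `r` or one of the numbers `d i * r + a i` -/
def nu {s : ℕ} (d a : Fin s → ℕ) (p : ℕ) : ℕ := ((range p).filter fun r => p ∣ r * ∏ i, (d i * r + a i)).card

/-- the product over the primes `p ≤ z` which occurs in the singular series -/
noncomputable def sing {s : ℕ} (d a : Fin s → ℕ) (z : ℕ) : ℝ :=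
  ∏ p ∈ (Icc 1 z).filter Nat.Prime, (1 - (nu d a p : ℝ) / p) / (1 - 1 / (p : ℝ)) ^ (s + 1)

/-- The singular series converges to a positive number `S`, the sum over the `m ≤ x` of the product of the von Mangoldt
function at `m` and at all the `d i * m + a i` is `S x` up to `x / log ^ U N`, and the number of the primes `m ≤ x` for which
all the `d i * m + a i` are primes is `S x / log ^ (s + 1) N` up to a relative error of at most `ε`. -/
def HardyLittlewood {s : ℕ} (ε : ℝ) (U N x : ℕ) (d a : Fin s → ℕ) : Prop :=
  ∃ S : ℝ, 0 < S ∧ Filter.Tendsto (sing d a) Filter.atTop (nhds S) ∧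
    |∑ m ∈ Icc 1 x, ArithmeticFunction.vonMangoldt m * ∏ i, ArithmeticFunction.vonMangoldt (d i * m + a i) - S * x| ≤
      x / Real.log N ^ U ∧
    |(count d a x : ℝ) - S * (x / Real.log N ^ (s + 1))| ≤ ε * (S * (x / Real.log N ^ (s + 1)))

/-- For ALL the integers `τ i` with `0 ≤ τ i ≤ log ^ W N`, for all `j ≤ log ^ A N` and for ALL the slopes `1 ≤ d i ≤ j` for which
the system of the forms `m` and `d i * m + (a i + τ i)` is admissible, the formula of Hardy and Littlewood holds for the
primes `m ≤ N / j` for which all the `d i * m + (a i + τ i)` are primes. (For `j = 1` these are the prime tuples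
`m, m + a i + τ i`, `m ≤ N`.) -/
def AllShortShifts {s : ℕ} (ε : ℝ) (A U W N : ℕ) (a : Fin s → ℕ) : Prop :=
  ∀ τ : Fin s → ℕ, (∀ i, (τ i : ℝ) ≤ Real.log N ^ W) →
    ∀ (j : ℕ) (d : Fin s → ℕ), (j : ℝ) ≤ Real.log N ^ A → (∀ i, 1 ≤ d i ∧ d i ≤ j) →
      Admissible d (fun i => a i + τ i) → HardyLittlewood ε U N (N / j) d (fun i => a i + τ i)

open Classical in
/-- Let `s ≥ 1`, bases `b i ≥ 2`, numbers `L i`, `η > 0`, `t`, factors `κ i ≥ 1`, `A`, `B`, `U`, `W` and `ε > 0` be fixed. Let `N` be
large, let the numbers `k i` satisfy `N / B ≤ (b i) ^ (k i) ≤ B N`, let `v i < (b i) ^ (k i)`, `i < s`, be independent random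
integers with `k i` determinantal digits in base `b i` (`DetDigits (b i) (L i) η t (k i) (p i)`), and let `0 ≤ c i ≤ B N`. Up to a
probability of at most `1 / log ^ U N`, the formula of Hardy and Littlewood holds, uniformly for ALL the short shifts
`0 ≤ τ i ≤ log ^ W N`, all `j ≤ log ^ A N` and ALL slopes `1 ≤ d i ≤ j` for which the system is admissible, for the primes
`m ≤ N / j` for which all the `d i * m + (c i + κ i v i + τ i)` are primes. -/
theorem result (s : ℕ) (hs : 1 ≤ s) (b L : Fin s → ℕ) (hb : ∀ i, 2 ≤ b i) (η : ℝ) (hη : 0 < η) (t : ℕ)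
    (κ : Fin s → ℕ) (hκ : ∀ i, 1 ≤ κ i) (A B U W : ℕ) (ε : ℝ) (hε : 0 < ε) :
    ∃ N₀ : ℕ, ∀ N, N₀ ≤ N → ∀ k : Fin s → ℕ, (∀ i, b i ^ k i ≤ B * N ∧ N ≤ B * b i ^ k i) →
      ∀ p : Fin s → ℕ → ℝ, (∀ i, DetDigits (b i) (L i) η t (k i) (p i)) → ∀ c : Fin s → ℕ, (∀ i, c i ≤ B * N) →
      ∑ v ∈ Fintype.piFinset (fun i => range (b i ^ k i)),
        (if AllShortShifts ε A U W N (fun i => c i + κ i * v i) then 0 else ∏ i, p i (v i)) ≤ 1 / Real.log N ^ U := by
  obtain ⟨N₀, h0⟩ := Pool.Agent.Run7.h927.ST.ws_near s hs
    (fun i => Pool.Agent.N625.DY.Kc (b i) B (DC (b i) (L i) η)) κ hκ B (U + 2 * (t * s)) A W ε hε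
    (fun i V => dc_one (b i) (L i) η (hb i) hη (κ i) (hκ i) B (B + 1) V)
  refine ⟨N₀ + B + 64, fun N hN k hk p hp c hc => ?_⟩
  choose μ hμ hpμ using fun i => fam_dc (hp i)
  have hμ0 : ∀ i v, 0 ≤ μ i v := fun i v => DC_nonneg (hμ i) v
  have hN64 : (64 : ℝ) ≤ N := by exact_mod_cast (by omega : 64 ≤ N)
  have hL1 : 1 ≤ Real.log N := by
    rw [Real.le_log_iff_exp_le (by linarith)]
    linarith [Real.exp_one_lt_d9]
  have hL0 : 0 < Real.log N := by linarith
  have h1 := h0 N (by omega) (fun i => range (b i ^ k i)) μ (fun i => ⟨k i, (hk i).1, (hk i).2, hμ i, rfl⟩)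
    (fun i v _ => hμ0 i v) c hc
  have hprod : ∀ v : Fin s → ℕ, ∏ i, p i (v i) ≤ (Real.log N ^ 2) ^ (t * s) * ∏ i, μ i (v i) := by
    intro v
    calc ∏ i, p i (v i) ≤ ∏ i, ((Real.log N ^ 2) ^ t * μ i (v i)) := by
          apply prod_le_prod (fun i _ => (hpμ i _).1)
          intro i _
          refine (hpμ i _).2.trans ?_
          apply mul_le_mul_of_nonneg_right _ (hμ0 i _)
          exact pow_le_pow_left₀ (Nat.cast_nonneg _) (digits_le (b i) B N (k i) (hb i) (by omega) (hk i).1) t
      _ = _ := by rw [prod_mul_distrib, prod_const, card_univ, Fintype.card_fin, ← pow_mul]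
  have h2 : ∀ v ∈ Fintype.piFinset (fun i => range (b i ^ k i)),
      (if AllShortShifts ε A U W N (fun i => c i + κ i * v i) then 0 else ∏ i, p i (v i)) ≤
      (Real.log N ^ 2) ^ (t * s) * (if ¬ Pool.Agent.Run7.h927.ST.NearS ε A (U + 2 * (t * s)) W N (fun i => c i + κ i * v i)
        then ∏ i, μ i (v i) else 0) := by
    intro v _
    have hm0 : 0 ≤ ∏ i, μ i (v i) := prod_nonneg fun i _ => hμ0 i _
    by_cases hg : AllShortShifts ε A U W N (fun i => c i + κ i * v i)
    · rw [if_pos hg]
      apply mul_nonneg (by positivity)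
      split_ifs
      · exact le_rfl
      · exact hm0
    · rw [if_neg hg, if_pos]
      · exact hprod v
      · intro h3
        apply hg
        intro τ hτ
        have h4 := h3 (fun i => c i + κ i * v i + τ i) (fun i => ⟨by simp only; omega, by
          push_cast
          linarith [hτ i]⟩)
        exact Pool.Agent.Run7.h927.ST.AllS_mono (by omega) (by omega) h4
  refine (sum_le_sum h2).trans ?_
  rw [← mul_sum]
  calc (Real.log N ^ 2) ^ (t * s) * ∑ v ∈ Fintype.piFinset (fun i => range (b i ^ k i)),
        (if ¬ Pool.Agent.Run7.h927.ST.NearS ε A (U + 2 * (t * s)) W N (fun i => c i + κ i * v i)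
          then ∏ i, μ i (v i) else 0)
      ≤ (Real.log N ^ 2) ^ (t * s) * (1 / Real.log N ^ (U + 2 * (t * s))) :=
        mul_le_mul_of_nonneg_left h1 (by positivity)
    _ = 1 / Real.log N ^ U := by
        rw [← pow_mul, pow_add]
        field_simp

end Pool.Agent.Results.MP_485179_nt.DeterminantalShifts
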