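import Pool.Agent.Run7.h27.MK.Fin
import Pool.Agent.Run7.h27.MK.Poly2

/-!
# Prime tuples whose shifts are values of polynomials in short ranges, inside intervals of length `x ^ (1/3) log ^ C x`

From Mathlib: `Fintype.piFinset S`: the vectors `n` with `n i ∈ S i` for all `i`; `ArithmeticFunction.vonMangoldt`.

Method (project MK of this run, by helper18, 27, 284, 364, 373, 477, 609, 757, 777, 788, 794, 880, 931 and others): the von
Mangoldt function minus a sieve model has small exponential sums at ALL frequencies in almost all intervals of length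
`x ^ (1/3) log ^ C x`; a discrete form of Gallagher's lemma turns this into mean squares of the exponential sum over short
arcs. By the inverse theorem for Weyl sums (starting files, `Pool.Agent.H373R2.NB`) the exponential sum over the values of
a polynomial at `0 ≤ k < K` is large only on few arcs of length about `K ^ (- d)`, and only such arcs matter for the
correlations at almost all of these shifts. The passage to tuples is from the starting files (`Pool.Agent.N469.PT`,
`Pool.Agent.N699.ST`).
-/

set_option autoImplicit false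

namespace Pool.Agent.Results.MP_485179_nt.PolynomialShifts

open Finset

/-- The system of the forms `r` and `d i * r + a i` is admissible: for every prime `p` there is an integer `r` for which
`p` divides neither `r` nor any of the `d i * r + a i`. -/
def Admissible {s : ℕ} (d a : Fin s → ℕ) : Prop := ∀ p : ℕ, p.Prime → ∃ r : ℕ, ¬ p ∣ r ∧ ∀ i, ¬ p ∣ d i * r + a i

/-- the number of the primes `n ≤ x` for which all the numbers `d i * n + a i` are primes -/
def count {s : ℕ} (d a : Fin s → ℕ) (x : ℕ) : ℕ := ((Icc 1 x).filter fun n => n.Prime ∧ ∀ i, (d i * n + a i).Prime).card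

/-- the number of the classes `r` modulo `p` for which `p` divides `r` or one of the numbers `d i * r + a i` -/
def nu {s : ℕ} (d a : Fin s → ℕ) (p : ℕ) : ℕ := ((range p).filter fun r => p ∣ r * ∏ i, (d i * r + a i)).card

/-- the product over the primes `p ≤ z` which occurs in the singular series -/
noncomputable def sing {s : ℕ} (d a : Fin s → ℕ) (z : ℕ) : ℝ :=
  ∏ p ∈ (Icc 1 z).filter Nat.Prime, (1 - (nu d a p : ℝ) / p) / (1 - 1 / (p : ℝ)) ^ (s + 1)

/-- The singular series converges to a positive number `S`, the sum over the `n ≤ x` of the product of the von Mangoldt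
function at `n` and at all the `d i * n + a i` is `S x` up to `x / log ^ U N`, and the number of the primes `n ≤ x` for which
all the `d i * n + a i` are primes is `S x / log ^ (s + 1) N` up to a relative error of at most `ε`. -/
def HardyLittlewood {s : ℕ} (ε : ℝ) (U N x : ℕ) (d a : Fin s → ℕ) : Prop :=
  ∃ S : ℝ, 0 < S ∧ Filter.Tendsto (sing d a) Filter.atTop (nhds S) ∧
    |∑ n ∈ Icc 1 x, ArithmeticFunction.vonMangoldt n * ∏ i, ArithmeticFunction.vonMangoldt (d i * n + a i) - S * x| ≤
      x / Real.log N ^ U ∧
    |(count d a x : ℝ) - S * (x / Real.log N ^ (s + 1))| ≤ ε * (S * (x / Real.log N ^ (s + 1)))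

open Classical in
/-- Let `s ≥ 1`, degrees `g i ≥ 1` (`i < s`), `b`, `B`, `A`, `W`, `U` and `ε > 0` be fixed. There is a number `C` such that the
following holds for all large `N`. Let `F i`, `i < s`, be integer polynomials of degree `g i` whose leading coefficients are
at most `log ^ b N` in absolute value (the other coefficients are arbitrary), and let `K i` be such that
`(K i) ^ (g i) ≥ N ^ (1/3) log ^ C N` and `0 ≤ F i (k) ≤ B N` for `0 ≤ k < K i`. All the vectors `n` of integers
`0 ≤ n i < K i`, up to a proportion of at most `1 / log ^ U N`, have the following property: for ALL integers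
`0 ≤ t i ≤ log ^ W N`, ALL lengths `N / j` and ALL slopes `1 ≤ d i ≤ j`, `j ≤ log ^ A N`, for which the system of the forms `m`
and `d i * m + a i` with `a i = F i (n i) + t i` is admissible, the formula of Hardy and Littlewood holds for the primes
`m ≤ N / j` for which all the `d i * m + a i` are primes (for `j = 1`: prime tuples `m`, `m + F i (n i) + t i`).

For example `F i (x) = (m i + x) ^ 2`: almost all the vectors of squares of integers from arbitrary intervals of length
`N ^ (1/6) log ^ C N`. -/
theorem result (s : ℕ) (hs : 1 ≤ s) (g : Fin s → ℕ) (hg : ∀ i, 1 ≤ g i) (b B A W U : ℕ) (ε : ℝ) (hε : 0 < ε) :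
    ∃ C N₀ : ℕ, ∀ N : ℕ, N₀ ≤ N → ∀ (F : Fin s → Polynomial ℤ) (K : Fin s → ℕ), (∀ i, (F i).natDegree = g i) →
      (∀ i, |((F i).leadingCoeff : ℝ)| ≤ Real.log N ^ b) →
      (∀ i, (N : ℝ) ^ (1 / 3 : ℝ) * Real.log N ^ C ≤ (K i : ℝ) ^ g i) →
      (∀ i, ∀ k : ℕ, k < K i → 0 ≤ (F i).eval (k : ℤ) ∧ (F i).eval (k : ℤ) ≤ B * N) →
      (((Fintype.piFinset fun i => range (K i)).filter fun n => ¬ ∀ t : Fin s → ℕ, (∀ i, (t i : ℝ) ≤ Real.log N ^ W) →
        ∀ (j : ℕ) (d : Fin s → ℕ), (j : ℝ) ≤ Real.log N ^ A → (∀ i, 1 ≤ d i ∧ d i ≤ j) →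
        Admissible d (fun i => ((F i).eval ((n i : ℕ) : ℤ)).toNat + t i) →
        HardyLittlewood ε U N (N / j) d (fun i => ((F i).eval ((n i : ℕ) : ℤ)).toNat + t i)).card : ℝ) ≤
        (∏ i, (K i : ℝ)) / Real.log N ^ U := by
  obtain ⟨C, N₀, h⟩ := Pool.Agent.Run7.h27.MK.poly2_all Pool.Agent.Run7.h794.MK.law_all s hs (fun _ => 1) g (fun _ => le_rfl) hg
    b B A W U ε hε
  refine ⟨C, N₀, fun N hN F K hF hlc hK hval => ?_⟩
  have h1 := h N hN F K (fun i => ⟨hF i, hlc i, hK i, hval i⟩) (fun _ => 0) (fun _ => Nat.zero_le _)
  simp only [zero_add, one_mul] at h1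
  exact h1

end Pool.Agent.Results.MP_485179_nt.PolynomialShifts
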