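import Pool.Agent.Run7.h673.SP.Mk3

/-!
# Prime tuples with shifts near the values of functions of superpolynomial growth, in short ranges

The formula of Hardy and Littlewood for the tuples `m`, `m + a_i`, where the shifts `a_i` are near values of functions such as
`exp (γ (log n) ^ β)`, `1 < β < 3 / 2`, which may be as small as `N ^ (1 / 3) log ^ C N`.

From Mathlib: `ArithmeticFunction.vonMangoldt`: the function `Λ`; `Fintype.piFinset S`: the set of the vectors `n` with
`n i ∈ S i`; `ContDiffAt ℝ ⊤`: infinitely differentiable at a point; `iteratedDeriv m f`: the derivative of order `m`;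
`⌊y⌋₊`: the integer part of `y`, and `0` for `y < 0`.

Method: the exponential sums over the integer parts of `exp (φ (log n))`, `y < n ≤ x`, are small at all frequencies with a
distance of at least `log ^ A / exp (φ (log y))` from the integers (Vinogradov's method of bilinear exponential sums with
the mean value theorem in the form of a starting file; files `Pool.Agent.Run7.h673.SP`). By project MK of this run (helper794
and others) the von Mangoldt function minus a sieve model has small mean squares over ALL short arcs of length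
`N ^ (-1/3) log ^ (-C) N` and so only such short arcs around the integers matter for the correlations at almost all of
these shifts. The passage to tuples is from the starting files (`Pool.Agent.N469.PT`, `Pool.Agent.N699.ST`).
-/

set_option autoImplicit false

namespace Pool.Agent.Results.MP_485179_nt.SuperpolynomialShortRanges

open Finset

/-- The conditions on `φ` for the growth of `f t = exp (φ (log t))`: for some `δ > 0`, `K` and `L₀` and all `y > L₀` the
function `φ` is infinitely differentiable at `y`, `φ y > 0`, `(1 + δ) φ y ≤ y φ' y`, `φ y ≤ y ^ (3 / 2 - δ)`, and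
`|φ⁽ᵐ⁾ y| ≤ m! φ y (K / y) ^ m` for all `m ≥ 1`. -/
def Rapid (φ : ℝ → ℝ) : Prop :=
  ∃ δ K L₀ : ℝ, 0 < δ ∧ ∀ y > L₀, ContDiffAt ℝ ((⊤ : ℕ∞) : WithTop ℕ∞) φ y ∧ 0 < φ y ∧
    (1 + δ) * φ y ≤ y * deriv φ y ∧ φ y ≤ y ^ (3 / 2 - δ) ∧
    ∀ m : ℕ, 1 ≤ m → |iteratedDeriv m φ y| ≤ m.factorial * φ y * (K / y) ^ m

/-- `(y, x]` is a range of length at least `x / log ^ a N` in which `f t = exp (φ (log t))` has values between
`N ^ (1/3) log ^ C N` and `B N`: `y < x`, `x ≤ log ^ a N (x - y)`, `N ^ (1/3) log ^ C N ≤ f y` and `f x ≤ B N`. -/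
def Range (φ : ℝ → ℝ) (a C B N x y : ℕ) : Prop :=
  y < x ∧ (x : ℝ) ≤ Real.log N ^ a * ((x : ℝ) - y) ∧
    (N : ℝ) ^ (1 / 3 : ℝ) * Real.log N ^ C ≤ Real.exp (φ (Real.log y)) ∧ Real.exp (φ (Real.log x)) ≤ B * N

/-- For every prime `p` there is an integer `m` for which `p` divides neither `m` nor any `m + a i`. -/
def Admissible {s : ℕ} (a : Fin s → ℕ) : Prop := ∀ p : ℕ, p.Prime → ∃ m : ℕ, ¬ p ∣ m ∧ ∀ i, ¬ p ∣ m + a i

/-- the number of the primes `m ≤ x` for which all the numbers `m + a i` are primes -/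
def count {s : ℕ} (a : Fin s → ℕ) (x : ℕ) : ℕ := ((Icc 1 x).filter fun m => m.Prime ∧ ∀ i, (m + a i).Prime).card

/-- the number of the residues `m` modulo `p` for which `p` divides `m` or one of the numbers `m + a i` -/
def nu {s : ℕ} (a : Fin s → ℕ) (p : ℕ) : ℕ := ((range p).filter fun m => p ∣ m * ∏ i, (m + a i)).card

/-- the product over the primes `p ≤ z` which occurs in the singular series -/
noncomputable def sing {s : ℕ} (a : Fin s → ℕ) (z : ℕ) : ℝ :=
  ∏ p ∈ (Icc 1 z).filter Nat.Prime, (1 - (nu a p : ℝ) / p) / (1 - 1 / (p : ℝ)) ^ (s + 1)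

/-- The singular series converges to a positive number `S`, the sum over the `m ≤ x` of the product of the von Mangoldt
function at `m` and at all the `m + a i` is `S x` up to `x / log ^ U N`, and the number of the primes `m ≤ x` for which all
the `m + a i` are primes is `S x / log ^ (s + 1) N` up to a relative error of at most `ε`. -/
def HardyLittlewood {s : ℕ} (ε : ℝ) (U N x : ℕ) (a : Fin s → ℕ) : Prop :=
  ∃ S : ℝ, 0 < S ∧ Filter.Tendsto (sing a) Filter.atTop (nhds S) ∧
    |∑ m ∈ Icc 1 x, ArithmeticFunction.vonMangoldt m * ∏ i, ArithmeticFunction.vonMangoldt (m + a i) - S * x| ≤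
      x / Real.log N ^ U ∧
    |(count a x : ℝ) - S * (x / Real.log N ^ (s + 1))| ≤ ε * (S * (x / Real.log N ^ (s + 1)))

lemma of_fo {s : ℕ} {ε : ℝ} {U N x : ℕ} {a : Fin s → ℕ} (h : Pool.Agent.N699.ST.Fo ε U N x (fun _ => 1) a) :
    HardyLittlewood ε U N x a := by
  have e1 : Pool.Agent.N699.ST.sing (fun _ : Fin s => 1) a = sing a := by
    funext z
    unfold Pool.Agent.N699.ST.sing sing Pool.Agent.N699.ST.nu nu
    simp only [one_mul]
  have e2 : Pool.Agent.N699.ST.cnt (fun _ : Fin s => 1) a x = count a x := by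
    unfold Pool.Agent.N699.ST.cnt count
    simp only [one_mul]
  obtain ⟨S, h1, h2, h3, h4⟩ := h
  rw [e1] at h2
  rw [e2] at h4
  simp only [one_mul] at h3
  exact ⟨S, h1, h2, h3, h4⟩

open Classical in
/-- **(1)** Let `s ≥ 1`, let `φ i` (`i < s`) satisfy the conditions `Rapid`, and let `κ i ≥ 1`, `A`, `B`, `U`, `W`, `a` and `ε > 0`
be fixed. There is `C` such that for all large `N`, all ranges `(y i, x i]` (`Range`: the values `exp (φ i (log n))` are
between `N ^ (1/3) log ^ C N` and `B N`) and all integers `0 ≤ c i ≤ B N` the following holds for all vectors `n` with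
`y i < n i ≤ x i`, but for at most `∏ (x i - y i) / log ^ U N` exceptions: for ALL the shifts
`a i = c i + κ i ⌊exp (φ i (log (n i)))⌋ + t i` with integers `0 ≤ t i ≤ log ^ W N` for which the tuple `m`, `m + a i` is
admissible, and for all `1 ≤ j ≤ log ^ A N`, the formula of Hardy and Littlewood holds for the `m ≤ N / j`.

**(2)** Let `φ` satisfy the conditions `Rapid`, `η > 0`, `C`, `B`. For all large `N` and all `X` with
`N ^ (1/3 + η) ≤ exp (φ (log X)) ≤ B N` the interval `(⌊X / 2⌋, X]` is a range (`a = 1`).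

**(3)** The functions `φ y = γ y ^ β` with `γ > 0` and `1 < β < 3 / 2` satisfy the conditions `Rapid`. -/
theorem result :
    (∀ (s : ℕ), 1 ≤ s → ∀ φ : Fin s → ℝ → ℝ, (∀ i, Rapid (φ i)) → ∀ κ : Fin s → ℕ, (∀ i, 1 ≤ κ i) →
      ∀ (A B U W a : ℕ) (ε : ℝ), 0 < ε →
      ∃ C N₀ : ℕ, ∀ N : ℕ, N₀ ≤ N → ∀ x y : Fin s → ℕ, (∀ i, Range (φ i) a C B N (x i) (y i)) →
      ∀ c : Fin s → ℕ, (∀ i, c i ≤ B * N) →
      (((Fintype.piFinset fun i => Ioc (y i) (x i)).filter fun n => ¬ ∀ t : Fin s → ℕ, (∀ i, (t i : ℝ) ≤ Real.log N ^ W) →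
        ∀ j : ℕ, 1 ≤ j → (j : ℝ) ≤ Real.log N ^ A →
          Admissible (fun i => c i + κ i * ⌊Real.exp (φ i (Real.log (n i)))⌋₊ + t i) →
          HardyLittlewood ε U N (N / j) (fun i => c i + κ i * ⌊Real.exp (φ i (Real.log (n i)))⌋₊ + t i)).card : ℝ) ≤
        (∏ i, ((x i : ℝ) - y i)) / Real.log N ^ U) ∧
    (∀ φ : ℝ → ℝ, Rapid φ → ∀ η : ℝ, 0 < η → ∀ C B : ℕ, ∃ N₀ : ℕ, ∀ N : ℕ, N₀ ≤ N → ∀ X : ℕ,
      (N : ℝ) ^ (1 / 3 + η) ≤ Real.exp (φ (Real.log X)) → Real.exp (φ (Real.log X)) ≤ B * N → Range φ 1 C B N X (X / 2)) ∧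
    (∀ γ β : ℝ, 0 < γ → 1 < β → β < 3 / 2 → Rapid (fun y => γ * y ^ β)) := by
  refine ⟨fun s hs φ hφ κ hκ A B U W a ε hε => ?_, fun φ hφ η hη C B => ?_,
    fun γ β h1 h2 h3 => Pool.Agent.Run7.h673.SP.rapid_pow γ β h1 h2 h3⟩
  · obtain ⟨C, N₀, h0⟩ := Pool.Agent.Run7.h673.SP.rg_all s hs φ (fun i => hφ i) κ hκ a B A W U ε hε
    refine ⟨C, N₀, fun N hN x y hI c hc => ?_⟩
    have h1 := h0 N hN x y (fun i => by
      obtain ⟨e1, e2, e3, e4⟩ := hI i
      refine ⟨e1, ?_, e3, e4⟩
      rw [Nat.cast_sub e1.le]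
      exact e2) c hc
    have e5 : (∏ i, ((x i - y i : ℕ) : ℝ)) = ∏ i, ((x i : ℝ) - y i) := by
      refine prod_congr rfl fun i _ => ?_
      rw [Nat.cast_sub (hI i).1.le]
    rw [e5] at h1
    refine le_trans ?_ h1
    have hsub : ((Fintype.piFinset fun i => Ioc (y i) (x i)).filter fun n => ¬ ∀ t : Fin s → ℕ,
        (∀ i, (t i : ℝ) ≤ Real.log N ^ W) → ∀ j : ℕ, 1 ≤ j → (j : ℝ) ≤ Real.log N ^ A →
          Admissible (fun i => c i + κ i * ⌊Real.exp (φ i (Real.log (n i)))⌋₊ + t i) →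
          HardyLittlewood ε U N (N / j) (fun i => c i + κ i * ⌊Real.exp (φ i (Real.log (n i)))⌋₊ + t i)) ⊆
        ((Fintype.piFinset fun i => Ioc (y i) (x i)).filter fun n => ¬ ∀ t : Fin s → ℕ, (∀ i, (t i : ℝ) ≤ Real.log N ^ W) →
        Pool.Agent.N699.ST.AllS ε A U N (fun i => c i + κ i * Pool.Agent.Run7.h673.SP.val (φ i) (n i) + t i)) := by
      intro n hn
      rw [mem_filter] at hn ⊢
      refine ⟨hn.1, fun hall => hn.2 fun t ht j hj1 hj hadm => ?_⟩
      have h2 := hall t ht j (fun _ => 1) hj (fun i => ⟨le_rfl, hj1⟩) (by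
        intro p hp
        obtain ⟨m, hm1, hm2⟩ := hadm p hp
        refine ⟨m, hm1, fun i => ?_⟩
        rw [one_mul]
        exact hm2 i)
      exact of_fo h2
    exact_mod_cast card_le_card hsub
  · have hφ' : Pool.Agent.Run7.h673.SP.Rapid φ := hφ
    obtain ⟨δ, K, L₀, hf⟩ := hφ'.fast
    obtain ⟨N₀, h⟩ := hf.half η hη C B
    refine ⟨N₀, fun N hN X h1 h2 => ?_⟩
    obtain ⟨e1, e2, e3, e4⟩ := h N hN X h1 h2
    refine ⟨e1, ?_, e3, e4⟩
    rw [Nat.cast_sub e1.le] at e2
    exact e2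

end Pool.Agent.Results.MP_485179_nt.SuperpolynomialShortRanges
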