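import Pool.Agent.Run7.h90.AU.Shift

set_option autoImplicit false

/-!
# Uniform prime tuples at the members of thin families of residues modulo a prime

Let `p` be a large prime and let `(v_i)`, `i ∈ s`, be a family of residues modulo `p` whose exponential sums
`∑ e(ξ v_i / p)`, `ξ ≠ 0`, are at most `p ^ (-ε) |s|`; the family may be very thin. Examples: the values of a sparse
polynomial of arbitrary degree on a subgroup of order `p ^ η`, the values `c_1 g_1 ^ n + ... + c_k g_k ^ n`, `n < N`,
`N ≥ p ^ η`. The theorem is about the integers `n` congruent to a member of the family modulo `p` in an interval of length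
`L ≥ p ^ (1 - δ)`. For every `k ≥ 1`, uniformly in
all sets of `k` positive integers `D`, `max D ≤ p ^ A - 1`, such that `{0} ∪ D` is admissible, the tuples `n`, `n + d`,
`d ∈ D`, of numbers without prime factors up to `z` have the frequency predicted by Hardy and Littlewood.

Proof: bound of Bourgain, Glibichuk and Konyagin in the form for recurrences and monomials (`Agent/Run7/h823/BK9`);
equidistribution in the residue classes modulo all integers up to `p ^ δ` and the fundamental lemma of the sieve
(`Agent/Run7/h90/AU`).
-/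

namespace Pool.Agent.Results.MP_485179_nt.TuplesInSparseFamilies

open Finset Filter Topology
open Pool.Agent.Run7.h90.AU (UniformFormula UniformOrders SparseSmall RecurrencesSmall classes height)

/-- The partial products, over the primes `q ≤ z`, of the singular series of the `k + 1` integers `{0} ∪ D`. -/
noncomputable def partialSingularSeries (k : ℕ) (D : Finset ℕ) (z : ℕ) : ℝ :=
  ∏ q ∈ (range (z + 1)).filter Nat.Prime, ((1 - (classes (insert 0 D) q : ℝ) / q) / (1 - 1 / (q : ℝ)) ^ (k + 1))

/-- `D` has `k` elements, all positive, and `{0} ∪ D` is admissible. -/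
def Good (k : ℕ) (D : Finset ℕ) : Prop := D.card = k ∧ 0 ∉ D ∧ ∀ q : ℕ, q.Prime → classes (insert 0 D) q < q

/-- The numbers `n` and `n + d`, `d ∈ D`, have the property `P`. -/
def Tuple (D : Finset ℕ) (P : ℕ → Prop) (n : ℕ) : Prop := P n ∧ ∀ d ∈ D, P (n + d)

theorem ok (k : ℕ) (D : Finset ℕ) (h : Good k D) : Pool.Agent.Run7.h90.AU.Admissible (k + 1) (insert 0 D) :=
  ⟨by rw [card_insert_of_notMem h.2.1, h.1], h.2.2⟩

theorem size (k : ℕ) (D : Finset ℕ) (_ : Good k D) : height (insert 0 D) ≤ height D := by
  unfold height
  have h1 : (insert 0 D).sup id = D.sup id := by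
    rw [sup_insert]
    simp
  rw [h1]

theorem pat (k : ℕ) (D : Finset ℕ) (_ : Good k D) (P : ℕ → Prop) (n : ℕ) (_ : 1 ≤ n) :
    Pool.Agent.Run7.h90.AU.Shifts (insert 0 D) P n ↔ Tuple D P n := by
  unfold Pool.Agent.Run7.h90.AU.Shifts Tuple
  rw [forall_mem_insert, add_zero]

theorem result : (∀ k : ℕ, 1 ≤ k → UniformFormula (k + 1) Tuple (partialSingularSeries k) height (Good k) ∧
    UniformOrders (k + 1) Tuple (partialSingularSeries k) height (Good k)) ∧ SparseSmall ∧ RecurrencesSmall :=
  ⟨fun k _ => ⟨(Pool.Agent.Run7.h90.AU.shiftPat (k + 1)).formula.comap (fun D => insert 0 D) (ok k) (size k) (pat k)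
      (fun _ _ => EventuallyEq.rfl),
    (Pool.Agent.Run7.h90.AU.shiftPat (k + 1)).orders.comap (fun D => insert 0 D) (ok k) (size k) (pat k)
      (fun _ _ => EventuallyEq.rfl)⟩,
    Pool.Agent.Run7.h90.AU.sparse_small, Pool.Agent.Run7.h90.AU.rec_small⟩

end Pool.Agent.Results.MP_485179_nt.TuplesInSparseFamilies
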